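import Mathlib
import Pool.Agent.H32.NS.Semi

set_option autoImplicit false

namespace Pool.Agent.Results.MP_bf0901_co.TypeParity

open Filter Topology

/-- `S` is a numerical semigroup: it contains `0`, is closed under addition and has finite
complement in the natural numbers. -/
def IsNumericalSemigroup (S : Set ℕ) : Prop :=
  0 ∈ S ∧ (∀ a ∈ S, ∀ b ∈ S, a + b ∈ S) ∧ Sᶜ.Finite

/-- The genus: the number of gaps. -/
noncomputable def genus (S : Set ℕ) : ℕ := Sᶜ.ncard

/-- The pseudo-Frobenius numbers: the integers `x` not in `S` such that `x + s` lies in `S` for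
every nonzero `s` in `S`. -/
def pseudoFrobenius (S : Set ℕ) : Set ℤ :=
  {x : ℤ | (∀ s ∈ S, x ≠ (s : ℤ)) ∧ ∀ s ∈ S, s ≠ 0 → ∃ s' ∈ S, x + (s : ℤ) = (s' : ℤ)}

/-- The type: the number of pseudo-Frobenius numbers. -/
noncomputable def semigroupType (S : Set ℕ) : ℕ := (pseudoFrobenius S).ncard

/-- The number of numerical semigroups of genus `g`. -/
noncomputable def nAll (g : ℕ) : ℕ := {S : Set ℕ | IsNumericalSemigroup S ∧ genus S = g}.ncard

/-- The number of numerical semigroups of genus `g` and odd type. -/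
noncomputable def nOdd (g : ℕ) : ℕ :=
  {S : Set ℕ | IsNumericalSemigroup S ∧ genus S = g ∧ Odd (semigroupType S)}.ncard

open H32.NS

theorem all_eq (g : ℕ) : {S : Set ℕ | IsNumericalSemigroup S ∧ genus S = g} =
    sg '' (KW g : Set (List ℕ)) := by
  ext S
  constructor
  · rintro ⟨⟨h0, hadd, hfin⟩, hg⟩
    obtain ⟨l, hl, rfl⟩ := exists_word h0 hadd hfin
    refine ⟨l, ?_, rfl⟩
    rw [Finset.mem_coe, mem_KW]
    exact ⟨hl, by rw [← ncard_compl]; exact hg⟩
  · rintro ⟨l, hl, rfl⟩
    rw [Finset.mem_coe, mem_KW] at hl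
    exact ⟨⟨sg_zero l, fun a ha b hb => sg_add hl.1 ha hb, compl_finite l⟩,
      (ncard_compl l).trans hl.2⟩

theorem injOn_sg (g : ℕ) : Set.InjOn sg (KW g : Set (List ℕ)) := by
  intro l hl l' hl' h
  rw [Finset.mem_coe, mem_KW] at hl hl'
  exact sg_injOn hl.1 hl'.1 h

theorem nAll_eq (g : ℕ) : nAll g = (KW g).card := by
  unfold nAll
  rw [all_eq, Set.ncard_image_of_injOn (injOn_sg g), Set.ncard_coe_finset]

open Classical in
theorem nOdd_eq (g : ℕ) (hg : 0 < g) :
    nOdd g = ((KW g).filter (fun l => Odd (ty l))).card := by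
  have h : {S : Set ℕ | IsNumericalSemigroup S ∧ genus S = g ∧ Odd (semigroupType S)} =
      sg '' (((KW g).filter (fun l => Odd (ty l)) : Finset (List ℕ)) : Set (List ℕ)) := by
    have hty : ∀ l ∈ KW g, semigroupType (sg l) = ty l := by
      intro l hl
      rw [mem_KW] at hl
      apply ncard_PFZ hl.1
      rintro rfl
      simp at hl
      omega
    ext S
    constructor
    · rintro ⟨h1, h2, h3⟩
      have : S ∈ {S : Set ℕ | IsNumericalSemigroup S ∧ genus S = g} := ⟨h1, h2⟩
      rw [all_eq] at this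
      obtain ⟨l, hl, rfl⟩ := this
      refine ⟨l, ?_, rfl⟩
      rw [Finset.mem_coe] at hl
      rw [Finset.mem_coe, Finset.mem_filter]
      rw [hty l hl] at h3
      exact ⟨hl, h3⟩
    · rintro ⟨l, hl, rfl⟩
      rw [Finset.mem_coe, Finset.mem_filter] at hl
      have : sg l ∈ {S : Set ℕ | IsNumericalSemigroup S ∧ genus S = g} := by
        rw [all_eq]; exact ⟨l, hl.1, rfl⟩
      refine ⟨this.1, this.2, ?_⟩
      rw [hty l hl.1]; exact hl.2
  unfold nOdd
  rw [h, Set.ncard_image_of_injOn, Set.ncard_coe_finset]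
  intro l hl l' hl' hll
  rw [Finset.mem_coe, Finset.mem_filter] at hl hl'
  exact injOn_sg g hl.1 hl'.1 hll

/-- The proportion of numerical semigroups of genus `g` with odd type tends to one half. -/
theorem result : Tendsto (fun g : ℕ => (nOdd g : ℝ) / (nAll g : ℝ)) atTop (𝓝 (1 / 2)) := by
  classical
  apply ratio_tendsto.congr'
  filter_upwards [eventually_gt_atTop 0] with g hg
  rw [nAll_eq, nOdd_eq g hg]

end Pool.Agent.Results.MP_bf0901_co.TypeParity
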